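import Mathlib

set_option autoImplicit false

namespace Pool.Agent.Results.MP_0f7e3c_al.NotIsotropic

open MvPolynomial

/-- membership in the completion of the algebra generated by the linear forms `h_α`, `α ∈ Ξ` -/
def InIso {n : ℕ} (Ξ : Set (Fin n → ℂ)) (P : MvPolynomial (Fin n) ℂ) : Prop :=
  ∀ N : ℕ, ∃ R ∈ Algebra.adjoin ℂ
      ((fun α : Fin n → ℂ => ∑ i, C (α i) * (X i : MvPolynomial (Fin n) ℂ)) '' Ξ),
    ∀ d : Fin n →₀ ℕ, d.degree < N → coeff d R = coeff d P

noncomputable def P0 : MvPolynomial (Fin 5) ℂ :=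
  (X 0 + C Complex.I * X 1) * (X 2 + C Complex.I * X 3) + 2 * (X 0 + C Complex.I * X 1) ^ 2 * X 4
    - (X 0 + C Complex.I * X 1) ^ 3 * (X 2 - C Complex.I * X 3)

lemma II : (C Complex.I : MvPolynomial (Fin 5) ℂ) ^ 2 = -1 := by
  rw [← map_pow, Complex.I_sq]; simp

lemma kill {n : ℕ} (Ξ : Set (Fin n → ℂ)) (β : Fin n → ℂ) (hβ : ∀ α ∈ Ξ, ∑ i, α i * β i = 0)
    (R : MvPolynomial (Fin n) ℂ) (hR : R ∈ Algebra.adjoin ℂ
      ((fun α : Fin n → ℂ => ∑ i, C (α i) * (X i : MvPolynomial (Fin n) ℂ)) '' Ξ)) :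
    ∑ i, C (β i) * pderiv i R = 0 := by
  induction hR using Algebra.adjoin_induction with
  | mem x hx =>
    obtain ⟨α, hα, rfl⟩ := hx
    have : ∀ i, pderiv i (∑ j, C (α j) * (X j : MvPolynomial (Fin n) ℂ)) = C (α i) := by
      intro i
      simp [pderiv_X, Pi.single_apply]
    simp only [this, ← map_mul, ← map_sum]
    rw [show ∑ i, β i * α i = 0 by rw [← hβ α hα]; simp only [mul_comm], map_zero]
  | algebraMap r => simp
  | add x y _ _ hx hy => simp only [map_add, mul_add, Finset.sum_add_distrib, hx, hy, add_zero]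
  | mul x y _ _ hx hy =>
    have : ∑ i, C (β i) * pderiv i (x * y) =
        x * ∑ i, C (β i) * pderiv i y + y * ∑ i, C (β i) * pderiv i x := by
      simp only [Finset.mul_sum, ← Finset.sum_add_distrib, Derivation.leibniz, smul_eq_mul]
      exact Finset.sum_congr rfl fun i _ => by ring
    rw [this, hx, hy]; simp

lemma grad : ∀ i : Fin 5, pderiv i P0 =
    let a : MvPolynomial (Fin 5) ℂ := X 0 + C Complex.I * X 1
    let s : MvPolynomial (Fin 5) ℂ := (X 2 + C Complex.I * X 3) + 4 * a * X 4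
      - 3 * a ^ 2 * (X 2 - C Complex.I * X 3)
    ![s, C Complex.I * s, a - a ^ 3, C Complex.I * (a + a ^ 3), 2 * a ^ 2] i := by
  have h2 : ∀ i : Fin 5, pderiv i (2 : MvPolynomial (Fin 5) ℂ) = 0 := fun i =>
    (pderiv i).map_natCast 2
  intro i
  fin_cases i <;> simp [P0, pderiv_X, Pi.single_apply, Derivation.leibniz_pow, h2] <;> ring

lemma two (i : Fin 5) : pderiv i (2 : MvPolynomial (Fin 5) ℂ) = 0 := (pderiv i).map_natCast 2
lemma three (i : Fin 5) : pderiv i (3 : MvPolynomial (Fin 5) ℂ) = 0 := (pderiv i).map_natCast 3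
lemma four (i : Fin 5) : pderiv i (4 : MvPolynomial (Fin 5) ℂ) = 0 := (pderiv i).map_natCast 4

lemma coeff_sq (f : MvPolynomial (Fin 5) ℂ) :
    coeff (Finsupp.single 0 2) f = constantCoeff (pderiv 0 (pderiv 0 f)) / 2 := by
  rw [constantCoeff_eq, coeff_pderiv, coeff_pderiv]
  simp only [zero_add, ← Finsupp.single_add]
  simp
  ring

noncomputable def vA : Fin 5 → MvPolynomial (Fin 5) ℂ := ![1, C Complex.I, 0, 0, 0]
noncomputable def vG : Fin 5 → MvPolynomial (Fin 5) ℂ :=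
  ![0, 0, 1 - 3 * (X 0 + C Complex.I * X 1) ^ 2,
    C Complex.I * (1 + 3 * (X 0 + C Complex.I * X 1) ^ 2), 4 * (X 0 + C Complex.I * X 1)]

lemma hess : (Matrix.of fun i j : Fin 5 => pderiv i (pderiv j P0)) =
    (4 * X 4 - 6 * (X 0 + C Complex.I * X 1) * (X 2 - C Complex.I * X 3) :
      MvPolynomial (Fin 5) ℂ) • Matrix.vecMulVec vA vA + Matrix.vecMulVec vA vG +
      Matrix.vecMulVec vG vA := by
  ext1 i j
  rw [Matrix.of_apply, grad]
  fin_cases i <;> fin_cases j <;>
    simp [vA, vG, Matrix.vecMulVec_apply, pderiv_X, Derivation.leibniz_pow, two, three, four] <;>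
    ring

lemma AA : vA ⬝ᵥ vA = 0 := by
  simp [vA, dotProduct, Fin.sum_univ_succ]
  linear_combination II

lemma AG : vA ⬝ᵥ vG = 0 := by
  simp [vA, vG, dotProduct, Fin.sum_univ_succ]

lemma GA : vG ⬝ᵥ vA = 0 := by
  simp [vA, vG, dotProduct, Fin.sum_univ_succ]

lemma fix (e : MvPolynomial (Fin 5) ℂ) (i : Fin 5) :
    aeval (fun j => X j + e * pderiv j P0) (pderiv i P0) = pderiv i P0 := by
  set φ : MvPolynomial (Fin 5) ℂ →ₐ[ℂ] MvPolynomial (Fin 5) ℂ :=
    aeval (fun j => X j + e * pderiv j P0) with hφ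
  have hI : φ (C Complex.I) = C Complex.I := φ.commutes _
  have hX : ∀ j, φ (X j) = X j + e * pderiv j P0 := fun j => aeval_X _ _
  have ha : φ (X 0 + C Complex.I * X 1) = X 0 + C Complex.I * X 1 := by
    rw [map_add, map_mul, hI, hX, hX, grad, grad]
    simp only [Matrix.cons_val]
    linear_combination e * ((X 2 + C Complex.I * X 3) + 4 * (X 0 + C Complex.I * X 1) * X 4
      - 3 * (X 0 + C Complex.I * X 1) ^ 2 * (X 2 - C Complex.I * X 3)) * II
  have hv : φ (X 2 + C Complex.I * X 3) =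
      X 2 + C Complex.I * X 3 - 2 * e * (X 0 + C Complex.I * X 1) ^ 3 := by
    rw [map_add, map_mul, hI, hX, hX, grad, grad]
    simp only [Matrix.cons_val]
    linear_combination e * ((X 0 + C Complex.I * X 1) + (X 0 + C Complex.I * X 1) ^ 3) * II
  have hu : φ (X 2 - C Complex.I * X 3) =
      X 2 - C Complex.I * X 3 + 2 * e * (X 0 + C Complex.I * X 1) := by
    rw [map_sub, map_mul, hI, hX, hX, grad, grad]
    simp only [Matrix.cons_val]
    linear_combination (-e) * ((X 0 + C Complex.I * X 1) + (X 0 + C Complex.I * X 1) ^ 3) * II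
  have hw : φ (X 4) = X 4 + 2 * e * (X 0 + C Complex.I * X 1) ^ 2 := by
    rw [hX, grad]
    simp only [Matrix.cons_val]
    ring
  have hs : φ ((X 2 + C Complex.I * X 3) + 4 * (X 0 + C Complex.I * X 1) * X 4
      - 3 * (X 0 + C Complex.I * X 1) ^ 2 * (X 2 - C Complex.I * X 3)) =
      (X 2 + C Complex.I * X 3) + 4 * (X 0 + C Complex.I * X 1) * X 4
      - 3 * (X 0 + C Complex.I * X 1) ^ 2 * (X 2 - C Complex.I * X 3) := by
    rw [map_sub, map_add, map_mul, map_mul, map_mul, map_mul, map_pow, ha, hv, hu, hw, map_ofNat,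
      map_ofNat]
    ring
  rw [grad]
  fin_cases i
  · exact hs
  · exact (map_mul φ _ _).trans (by rw [hI, hs]; rfl)
  · exact (map_sub φ _ _).trans (by rw [map_pow, ha]; rfl)
  · exact (map_mul φ _ _).trans (by rw [hI, map_add, map_pow, ha]; rfl)
  · exact (map_mul φ _ _).trans (by rw [map_pow, ha, map_ofNat]; rfl)

theorem result : ∃ (n : ℕ) (P : MvPolynomial (Fin n) ℂ),
    (∀ d : Fin n →₀ ℕ, d.degree < 2 → coeff d P = 0) ∧
    IsNilpotent (Matrix.of fun i j : Fin n => pderiv i (pderiv j P)) ∧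
    (∀ i, aeval (fun j => X j + pderiv j P) (X i - pderiv i P) = X i) ∧
    (∀ i, aeval (fun j => X j - pderiv j P) (X i + pderiv i P) = X i) ∧
    ∀ Ξ : Set (Fin n → ℂ), (∀ α ∈ Ξ, ∀ β ∈ Ξ, ∑ i, α i * β i = 0) → ¬ InIso Ξ P := by
  refine ⟨5, P0, ?_, ?_, ?_, ?_, ?_⟩
  · intro d hd
    have ha : (X 0 + C Complex.I * X 1 : MvPolynomial (Fin 5) ℂ).IsHomogeneous 1 :=
      (isHomogeneous_X _ _).add ((isHomogeneous_X _ _).C_mul _)
    have hv : (X 2 + C Complex.I * X 3 : MvPolynomial (Fin 5) ℂ).IsHomogeneous 1 :=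
      (isHomogeneous_X _ _).add ((isHomogeneous_X _ _).C_mul _)
    have hu : (X 2 - C Complex.I * X 3 : MvPolynomial (Fin 5) ℂ).IsHomogeneous 1 :=
      (isHomogeneous_X _ _).sub ((isHomogeneous_X _ _).C_mul _)
    have h2 : (2 : MvPolynomial (Fin 5) ℂ).IsHomogeneous 0 := isHomogeneous_C _ (2 : ℂ)
    rw [P0, coeff_sub, coeff_add, (ha.mul hv).coeff_eq_zero (by omega),
      ((h2.mul (ha.pow 2)).mul (isHomogeneous_X _ 4)).coeff_eq_zero (by omega),
      ((ha.pow 3).mul hu).coeff_eq_zero (by omega)]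
    simp
  · refine ⟨3, ?_⟩
    rw [hess, pow_succ, sq]
    simp [Matrix.add_mul, Matrix.mul_add, Matrix.vecMulVec_mul_vecMulVec, AA, AG, GA]
  · intro i
    have := fix 1 i
    simp only [one_mul] at this
    rw [map_sub, this, aeval_X]; ring
  · intro i
    have := fix (-1) i
    simp only [neg_mul, one_mul, ← sub_eq_add_neg] at this
    rw [map_add, this, aeval_X]; ring
  · intro Ξ hΞ h
    obtain ⟨R, hR, hc⟩ := h 4
    set d : Fin 5 →₀ ℕ := Finsupp.single 0 2 with hd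
    have hγ : ∀ i, coeff d (pderiv i R) = coeff d (pderiv i P0) := by
      intro i
      rw [coeff_pderiv, coeff_pderiv, hc]
      simp [hd]
    have h1 : ∀ α ∈ Ξ, ∑ i, α i * coeff d (pderiv i R) = 0 := by
      intro α hα
      have := congrArg (coeff d) (kill Ξ α (fun β hβ => hΞ β hβ α hα) R hR)
      simpa [coeff_sum] using this
    have h2 := congrArg (coeff d) (kill Ξ _ h1 R hR)
    simp only [coeff_sum, coeff_C_mul, coeff_zero, hγ] at h2
    simp only [hd, coeff_sq, grad] at h2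
    simp [Fin.sum_univ_succ, pderiv_X, Derivation.leibniz_pow, two, three, four, map_ofNat] at h2

end Pool.Agent.Results.MP_0f7e3c_al.NotIsotropic
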